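import Pool.Agent.N742.DR.Main

/-!
MP_d92c84_an (an inverse drum problem): the answer is negative. There is a simple closed curve `R`
in the plane which is not a circle, enclosing the region `D`, and a simple closed curve `γ` in
`closure D`, such that for every wave speed `c > 0` there is a drum solution on `R` whose spatial
gradient vanishes along `γ` at all times.
-/

set_option autoImplicit false

namespace Pool.Agent.Results.MP_d92c84_an.InverseDrum

open Pool.Agent.N742.DR

/-- There are a simple closed curve `R` which is not a circle, enclosing the region `D`, and a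
simple closed curve `γ` in the closure of `D`, such that for every `c > 0` there is a drum solution
`z` on `R` with `∇ z = (zx, zy) = 0` along `γ` at all times. -/
theorem result :
    ∃ R D γ : Set (ℝ × ℝ), SimpleClosedCurve R ∧ Encloses R D ∧ ¬ IsCircle R ∧
      SimpleClosedCurve γ ∧ γ ⊆ closure D ∧
      ∀ c : ℝ, 0 < c → ∃ z zx zy : ℝ → ℝ → ℝ → ℝ, DrumSolution c R D z zx zy ∧
        ∀ v ∈ γ, ∀ t : ℝ, zx v.1 v.2 t = 0 ∧ zy v.1 v.2 t = 0 :=
  answer

end Pool.Agent.Results.MP_d92c84_an.InverseDrum
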